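import Mathlib

/-!
# MP_1409ae_co : a proper totally bounded tolerance order that is not a unit one
-/

namespace Pool.Agent.Results.MP_1409ae_co.ProperNotUnit

/-- `(L, R, p, q)` is a bounded bitolerance representation of the relation `r`. -/
def IsBitolRep {V : Type*} (r : V → V → Prop) (L R p q : V → ℝ) : Prop :=
  (∀ v, L v < p v ∧ p v ≤ R v ∧ L v ≤ q v ∧ q v < R v) ∧
  ∀ x y, x ≠ y → (r x y ↔ R x < p y ∧ q x < L y)

/-- The class `𝒰`: unit, tolerance, totally bounded. -/
def InU {V : Type*} (r : V → V → Prop) : Prop :=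
  ∃ L R p q : V → ℝ, IsBitolRep r L R p q ∧
    (∀ v, ∃ t > 0, p v = L v + t ∧ q v = R v - t) ∧ (∀ v, p v ≤ q v) ∧
    (∀ u v, R u - L u = R v - L v)

/-- The class `𝒫`: proper, tolerance, totally bounded. -/
def InP {V : Type*} (r : V → V → Prop) : Prop :=
  ∃ L R p q : V → ℝ, IsBitolRep r L R p q ∧
    (∀ v, ∃ t > 0, p v = L v + t ∧ q v = R v - t) ∧ (∀ v, p v ≤ q v) ∧
    (∀ u v, ¬ (Set.Icc (L u) (R u) ⊂ Set.Icc (L v) (R v)))

/-- The infinite vertex set: pairs `(L, b)` with `0 < L`, `L/2 < b ≤ 3L/4`. -/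
abbrev X : Type := {x : ℝ × ℝ // 0 < x.1 ∧ x.1 / 2 < x.2 ∧ x.2 ≤ 3 * x.1 / 4}

/-- constructor -/
def mk (L b : ℝ) (h1 : 0 < L) (h2 : L / 2 < b) (h3 : b ≤ 3 * L / 4) : X := ⟨(L, b), h1, h2, h3⟩

/-- The thin vertex at `L`. -/
noncomputable def thin (L : ℝ) (h : 0 < L) : X := mk L (3 * L / 4) h (by linarith) le_rfl

/-- The infinite order: intervals `[L, 2L]` with `q = 3L - 2b`, `p = 2b`. -/
def lt (x y : X) : Prop := 3 * x.1.1 - 2 * x.1.2 < y.1.1 ∧ x.1.1 < y.1.2

section Abstract

variable {K : Type*} [Field K] [LinearOrder K] [IsStrictOrderedRing K]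
variable {lam a be : X → K}

/-- The embedding hypothesis. -/
def Emb (lam a be : X → K) : Prop :=
  (∀ x, a x + be x = 2 * lam x) ∧ (∀ x, lam x ≤ a x) ∧
  ∀ x y, x ≠ y → (lt x y ↔ (a x < lam y ∧ lam x < be y))

omit [IsStrictOrderedRing K] in
lemma fwd (h : Emb lam a be) {x y : X} (hne : x ≠ y) (hxy : lt x y) :
    a x < lam y ∧ lam x < be y := (h.2.2 x y hne).1 hxy

omit [IsStrictOrderedRing K] in
lemma bwd (h : Emb lam a be) {x y : X} (hne : x ≠ y) (hxy : ¬ lt x y)
    (h1 : lam x < be y) : lam y ≤ a x := by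
  by_contra hc
  push Not at hc
  exact hxy ((h.2.2 x y hne).2 ⟨hc, h1⟩)

omit [IsStrictOrderedRing K] in
lemma bwd' (h : Emb lam a be) {x y : X} (hne : x ≠ y) (hxy : ¬ lt x y)
    (h1 : a x < lam y) : be y ≤ lam x := by
  by_contra hc
  push Not at hc
  exact hxy ((h.2.2 x y hne).2 ⟨h1, hc⟩)

lemma ne_of_L {x y : X} (h : x.1.1 ≠ y.1.1) : x ≠ y := by
  rintro rfl
  exact h rfl

/-- centres are ordered correctly -/
lemma mono (h : Emb lam a be) {x y : X} (hxy : x.1.1 < y.1.1) : lam x < lam y := by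
  by_contra hc
  push Not at hc
  have hne : x ≠ y := ne_of_L hxy.ne
  have hnlt : ¬ lt x y := by
    intro hlt
    have := (fwd h hne hlt).1
    have := h.2.1 x
    linarith
  obtain ⟨⟨Lx, bx⟩, hx1, hx2, hx3⟩ := x
  obtain ⟨⟨Ly, byy⟩, hy1, hy2, hy3⟩ := y
  simp only at hx1 hx2 hx3 hy1 hy2 hy3 hxy
  set x : X := ⟨(Lx, bx), hx1, hx2, hx3⟩ with hx
  set y : X := ⟨(Ly, byy), hy1, hy2, hy3⟩ with hy
  have hA : a x < a y := by
    -- z above x but not above y
    set bz := min ((Lx + Ly) / 2) (3 * Lx / 2) with hbz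
    have h1 : bz ≤ (Lx + Ly) / 2 := min_le_left _ _
    have h2 : bz ≤ 3 * Lx / 2 := min_le_right _ _
    have h3 : Lx < bz := lt_min (by linarith) (by linarith)
    set z : X := mk (2 * Lx) bz (by linarith) (by linarith) (by linarith) with hz
    have hxz : lt x z := ⟨by show 3 * Lx - 2 * bx < 2 * Lx; linarith, h3⟩
    have e1 := fwd h (x := x) (y := z) (ne_of_L (by show Lx ≠ 2 * Lx; linarith)) hxz
    have hyz : y ≠ z := by
      intro he
      rw [← he] at hxz
      exact hnlt hxz
    have hn : ¬ lt y z := by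
      rintro ⟨-, h4⟩
      have h5 : Ly < bz := h4
      linarith
    have := bwd h hyz hn (by linarith [e1.2])
    linarith [e1.1]
  have hB : be x < be y := by
    -- z' below y but not below x
    set c := (Lx + Ly) / 2 with hc
    have hcb : c / 2 < byy := by rw [hc]; linarith
    set L' := min ((c / 2 + byy) / 2) (2 * c / 3) with hL'
    have h1 : L' ≤ (c / 2 + byy) / 2 := min_le_left _ _
    have h2 : L' ≤ 2 * c / 3 := min_le_right _ _
    have h3 : c / 2 < L' := lt_min (by linarith) (by linarith)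
    set z : X := mk L' ((3 * L' - c) / 2) (by linarith) (by linarith) (by linarith) with hz
    have hzy : lt z y := by
      constructor
      · show 3 * L' - 2 * ((3 * L' - c) / 2) < Ly
        linarith
      · show L' < byy
        linarith
    have hzy' : z ≠ y := by
      apply ne_of_L
      show L' ≠ Ly
      apply ne_of_lt
      linarith
    have e1 := fwd h hzy' hzy
    have hzx : z ≠ x := by
      intro he
      rw [he] at hzy
      exact hnlt hzy
    have hn : ¬ lt z x := by
      rintro ⟨h4, -⟩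
      have h5 : 3 * L' - 2 * ((3 * L' - c) / 2) < Lx := h4
      linarith
    have := bwd' h hzx hn (by linarith [e1.1])
    linarith [e1.2]
  have s1 := h.1 x
  have s2 := h.1 y
  linarith

/-- (ii) -/
lemma above_a (h : Emb lam a be) {x w : X} (hxw : 3 * x.1.1 - 2 * x.1.2 < w.1.1) :
    a x < lam w := by
  have hx1 := x.2.1
  have hx2 := x.2.2.1
  have hx3 := x.2.2.2
  set c := (3 * x.1.1 - 2 * x.1.2 + w.1.1) / 2 with hc
  have hc0 : 0 < c := by rw [hc]; linarith
  have h1 : lt x (thin c hc0) := by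
    constructor
    · show 3 * x.1.1 - 2 * x.1.2 < c
      linarith
    · show x.1.1 < 3 * c / 4
      linarith
  have h2 := fwd h (x := x) (y := thin c hc0) (ne_of_L (by
    show x.1.1 ≠ c
    apply ne_of_lt; linarith)) h1
  have h3 : lam (thin c hc0) < lam w := mono h (by show c < w.1.1; linarith)
  linarith [h2.1]

/-- (iii) -/
lemma below_a (h : Emb lam a be) {x w : X} (hfat : x.1.2 < 3 * x.1.1 / 4)
    (hxw : w.1.1 < 3 * x.1.1 - 2 * x.1.2) : lam w < a x := by
  have hx1 := x.2.1
  have hx2 := x.2.2.1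
  have hw1 := w.2.1
  set q := 3 * x.1.1 - 2 * x.1.2 with hq
  set c := (max w.1.1 (3 * x.1.1 / 2) + q) / 2 with hc
  have m1 := le_max_left w.1.1 (3 * x.1.1 / 2)
  have m2 := le_max_right w.1.1 (3 * x.1.1 / 2)
  have m3 : max w.1.1 (3 * x.1.1 / 2) < q := max_lt hxw (by linarith)
  have hc0 : 0 < c := by rw [hc]; linarith
  set z := thin c hc0 with hz
  have hxz : x ≠ z := ne_of_L (by show x.1.1 ≠ c; apply ne_of_lt; linarith)
  have hn : ¬ lt x z := by
    rintro ⟨h1, -⟩
    have h2 : q < c := h1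
    linarith
  -- x' above x, below z
  set d := (x.1.1 + 2 * c / 3) / 2 with hd
  have hd0 : 0 < d := by rw [hd]; linarith
  have hxc : x.1.1 < 2 * c / 3 := by linarith
  set x' := thin d hd0 with hx'
  have h1 : lt x' z := by
    constructor
    · show 3 * d - 2 * (3 * d / 4) < c
      linarith
    · show d < 3 * c / 4
      linarith
  have h2 := fwd h (x := x') (y := z) (ne_of_L (by
    show d ≠ c
    apply ne_of_lt; linarith)) h1
  have h3 : lam x < lam x' := mono h (by show x.1.1 < d; linarith)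
  have h4 := bwd h hxz hn (by linarith [h2.2])
  have h5 : lam w < lam z := mono h (by show w.1.1 < c; linarith)
  linarith

/-- (iv) -/
lemma below_b (h : Emb lam a be) {y w : X} (hfat : y.1.2 < 2 * y.1.1 / 3)
    (hyw : w.1.1 < y.1.2) : lam w < be y := by
  have hw1 := w.2.1
  have hy1 := y.2.1
  set c := (w.1.1 + y.1.2) / 2 with hc
  have hc0 : 0 < c := by rw [hc]; linarith
  have h1 : lt (thin c hc0) y := by
    constructor
    · show 3 * c - 2 * (3 * c / 4) < y.1.1
      linarith
    · show c < y.1.2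
      linarith
  have h2 := fwd h (x := thin c hc0) (y := y) (ne_of_L (by
    show c ≠ y.1.1
    apply ne_of_lt; linarith)) h1
  have h3 : lam w < lam (thin c hc0) := mono h (by show w.1.1 < c; linarith)
  linarith [h2.2]

/-- (v) -/
lemma above_b (h : Emb lam a be) {y w : X} (hfat : y.1.2 < 2 * y.1.1 / 3)
    (hyw : y.1.2 < w.1.1) : be y < lam w := by
  have hy1 := y.2.1
  have hy2 := y.2.2.1
  set c := (y.1.2 + min w.1.1 (2 * y.1.1 / 3)) / 2 with hc
  have m1 := min_le_left w.1.1 (2 * y.1.1 / 3)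
  have m2 := min_le_right w.1.1 (2 * y.1.1 / 3)
  have m3 : y.1.2 < min w.1.1 (2 * y.1.1 / 3) := lt_min hyw hfat
  have hc0 : 0 < c := by rw [hc]; linarith
  set w' := thin c hc0 with hw'
  have hn : ¬ lt w' y := by
    rintro ⟨-, h1⟩
    have h2 : c < y.1.2 := h1
    linarith
  have h1 : a w' < lam y := above_a h (by
    show 3 * c - 2 * (3 * c / 4) < y.1.1
    linarith)
  have h2 := bwd' h (ne_of_L (by
    show c ≠ y.1.1
    apply ne_of_lt; linarith)) hn h1
  have h3 : lam w' < lam w := mono h (by show c < w.1.1; linarith)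
  linarith

/-- The functional equation, lower half. -/
lemma FE1 (h : Emb lam a be) {q b L1 : ℝ} (hL1 : 0 < L1) (hb : 0 < b) (hq : 0 < q)
    (h1 : 5 * b / 2 < q) (h2 : q < 4 * b) (h3 : L1 < (q + 2 * b) / 3) :
    2 * lam (thin L1 hL1) < lam (thin q hq) + lam (thin b hb) := by
  set Ls := (q + 2 * b) / 3 with hLs
  -- η
  obtain ⟨η, hη, e1, e2⟩ : ∃ η : ℝ, 0 < η ∧ η < Ls - L1 ∧ η < 2 * b - Ls := by
    refine ⟨min ((Ls - L1) / 2) ((2 * b - Ls) / 2), lt_min (by linarith) (by linarith), ?_, ?_⟩
    · have := min_le_left ((Ls - L1) / 2) ((2 * b - Ls) / 2)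
      linarith
    · have := min_le_right ((Ls - L1) / 2) ((2 * b - Ls) / 2)
      linarith
  set x : X := mk (Ls - η) (b - η) (by linarith) (by linarith) (by linarith) with hx
  have c1 : a x < lam (thin q hq) := above_a h (by
    show 3 * (Ls - η) - 2 * (b - η) < q
    linarith)
  have c2 : be x < lam (thin b hb) := above_b h (by
    show b - η < 2 * (Ls - η) / 3
    linarith) (by show b - η < b; linarith)
  have c3 : lam (thin L1 hL1) < lam x := mono h (by show L1 < Ls - η; linarith)
  have := h.1 x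
  linarith

/-- The functional equation, upper half. -/
lemma FE2 (h : Emb lam a be) {q b L2 : ℝ} (hL2 : 0 < L2) (hb : 0 < b) (hq : 0 < q)
    (h1 : 5 * b / 2 < q) (h2 : q < 4 * b) (h3 : (q + 2 * b) / 3 < L2) :
    lam (thin q hq) + lam (thin b hb) < 2 * lam (thin L2 hL2) := by
  set Ls := (q + 2 * b) / 3 with hLs
  obtain ⟨η, hη, e1, e2⟩ : ∃ η : ℝ, 0 < η ∧ η < L2 - Ls ∧ η < 2 * Ls - 3 * b := by
    refine ⟨min ((L2 - Ls) / 2) ((2 * Ls - 3 * b) / 2), lt_min (by linarith) (by linarith),
      ?_, ?_⟩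
    · have := min_le_left ((L2 - Ls) / 2) ((2 * Ls - 3 * b) / 2)
      linarith
    · have := min_le_right ((L2 - Ls) / 2) ((2 * Ls - 3 * b) / 2)
      linarith
  set x : X := mk (Ls + η) (b + η) (by linarith) (by linarith) (by linarith) with hx
  have c1 : lam (thin q hq) < a x := below_a h (by
    show b + η < 3 * (Ls + η) / 4
    linarith) (by
    show q < 3 * (Ls + η) - 2 * (b + η)
    linarith)
  have c2 : lam (thin b hb) < be x := below_b h (by
    show b + η < 2 * (Ls + η) / 3
    linarith) (by show b < b + η; linarith)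
  have c3 : lam x < lam (thin L2 hL2) := mono h (by show Ls + η < L2; linarith)
  have := h.1 x
  linarith

/-- No embedding exists. -/
lemma no_emb (h : Emb lam a be) : False := by
  -- centres near 9, left arms near 5, right arms at 17
  have A1 := FE1 h (q := 17) (b := 5) (L1 := 8.994) (by norm_num) (by norm_num) (by norm_num)
    (by norm_num) (by norm_num) (by norm_num)
  have A2 := FE2 h (q := 17) (b := 5.36) (L2 := 9.246) (by norm_num) (by norm_num) (by norm_num)
    (by norm_num) (by norm_num) (by norm_num)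
  -- centres near 5, left arms near 3, right arms near 9
  have B10 := FE1 h (q := 8.994) (b := 3.0075) (L1 := 5) (by norm_num) (by norm_num) (by norm_num)
    (by norm_num) (by norm_num) (by norm_num)
  have B20 := FE2 h (q := 9.246) (b := 3.0075) (L2 := 5.09) (by norm_num) (by norm_num)
    (by norm_num) (by norm_num) (by norm_num) (by norm_num)
  have B11 := FE1 h (q := 8.994) (b := 3.1425) (L1 := 5.09) (by norm_num) (by norm_num)
    (by norm_num) (by norm_num) (by norm_num) (by norm_num)
  have B21 := FE2 h (q := 9.246) (b := 3.1425) (L2 := 5.18) (by norm_num) (by norm_num)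
    (by norm_num) (by norm_num) (by norm_num) (by norm_num)
  have B12 := FE1 h (q := 8.994) (b := 3.2775) (L1 := 5.18) (by norm_num) (by norm_num)
    (by norm_num) (by norm_num) (by norm_num) (by norm_num)
  have B22 := FE2 h (q := 9.246) (b := 3.2775) (L2 := 5.27) (by norm_num) (by norm_num)
    (by norm_num) (by norm_num) (by norm_num) (by norm_num)
  have B13 := FE1 h (q := 8.994) (b := 3.4125) (L1 := 5.27) (by norm_num) (by norm_num)
    (by norm_num) (by norm_num) (by norm_num) (by norm_num)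
  have B23 := FE2 h (q := 9.246) (b := 3.4125) (L2 := 5.36) (by norm_num) (by norm_num)
    (by norm_num) (by norm_num) (by norm_num) (by norm_num)
  linarith

end Abstract

open Filter

/-- The finite suborder on a finite set of vertices, transported to `Fin n`. -/
noncomputable def rel (F : Finset X) (i j : Fin F.card) : Prop :=
  lt (F.equivFin.symm i : F) (F.equivFin.symm j : F)

lemma lt_irrefl' (x : X) : ¬ lt x x := by
  rintro ⟨-, h⟩
  have := x.2.2.2
  have := x.2.1
  linarith

lemma lt_trans' {x y z : X} (h1 : lt x y) (h2 : lt y z) : lt x z := by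
  obtain ⟨a1, a2⟩ := h1
  obtain ⟨b1, b2⟩ := h2
  have hy := y.2
  constructor
  · linarith [hy.1, hy.2.1, hy.2.2]
  · linarith [hy.1, hy.2.1, hy.2.2]

lemma rel_strict (F : Finset X) : IsStrictOrder (Fin F.card) (rel F) where
  irrefl _ := lt_irrefl' _
  trans _ _ _ h1 h2 := lt_trans' h1 h2

lemma rel_inP (F : Finset X) : InP (rel F) := by
  refine ⟨fun i => (F.equivFin.symm i : F).1.1.1, fun i => 2 * (F.equivFin.symm i : F).1.1.1,
    fun i => 2 * (F.equivFin.symm i : F).1.1.2,
    fun i => 3 * (F.equivFin.symm i : F).1.1.1 - 2 * (F.equivFin.symm i : F).1.1.2,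
    ⟨?_, ?_⟩, ?_, ?_, ?_⟩
  · intro i
    have h := (F.equivFin.symm i : F).1.2
    refine ⟨?_, ?_, ?_, ?_⟩ <;> beta_reduce <;> linarith [h.1, h.2.1, h.2.2]
  · intro i j _
    constructor
    · rintro ⟨h1, h2⟩
      exact ⟨by beta_reduce; linarith, h1⟩
    · rintro ⟨h1, h2⟩
      beta_reduce at h1 h2
      exact ⟨h2, by linarith⟩
  · intro i
    have h := (F.equivFin.symm i : F).1.2
    refine ⟨2 * (F.equivFin.symm i : F).1.1.2 - (F.equivFin.symm i : F).1.1.1, by
      linarith [h.1, h.2.1, h.2.2], by ring, by ring⟩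
  · intro i
    have h := (F.equivFin.symm i : F).1.2
    beta_reduce
    linarith [h.1, h.2.1, h.2.2]
  · intro i j hij
    beta_reduce at hij
    have hi := (F.equivFin.symm i : F).1.2
    have hj := (F.equivFin.symm j : F).1.2
    have h1 := hij.1 ⟨le_rfl, by linarith [hi.1]⟩
    have h2 := hij.1 ⟨by linarith [hi.1], le_rfl⟩
    have e : (F.equivFin.symm i : F).1.1.1 = (F.equivFin.symm j : F).1.1.1 := by
      linarith [h1.1, h1.2, h2.1, h2.2]
    apply hij.2
    rw [e]

lemma no_all (hall : ∀ (n : ℕ) (r : Fin n → Fin n → Prop), IsStrictOrder (Fin n) r →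
    InP r → InU r) : False := by
  classical
  have hF : ∀ F : Finset X, ∃ lam a be : X → ℝ, (∀ x, a x + be x = 2 * lam x) ∧
      (∀ x, lam x ≤ a x) ∧ ∀ x ∈ F, ∀ y ∈ F, x ≠ y →
        (lt x y ↔ (a x < lam y ∧ lam x < be y)) := by
    intro F
    obtain ⟨L, R, p, q, ⟨hrep1, hrep2⟩, htol, -, hunit⟩ := hall _ _ (rel_strict F) (rel_inP F)
    rcases isEmpty_or_nonempty (Fin F.card) with hE | ⟨⟨i₀⟩⟩
    · refine ⟨fun _ => 0, fun _ => 0, fun _ => 0, by simp, by simp, ?_⟩
      intro x hx
      exact hE.elim (F.equivFin ⟨x, hx⟩)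
    set ℓ := R i₀ - L i₀ with hℓ
    have hR : ∀ i, R i = L i + ℓ := fun i => by have := hunit i i₀; rw [hℓ]; linarith
    have hsum : ∀ i, q i + (p i - ℓ) = 2 * L i := by
      intro i
      obtain ⟨t, -, h1, h2⟩ := htol i
      have := hR i
      linarith
    refine ⟨fun x => if h : x ∈ F then L (F.equivFin ⟨x, h⟩) else 0,
      fun x => if h : x ∈ F then q (F.equivFin ⟨x, h⟩) else 0,
      fun x => if h : x ∈ F then p (F.equivFin ⟨x, h⟩) - ℓ else 0, ?_, ?_, ?_⟩
    · intro x
      by_cases hx : x ∈ F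
      · simp only [hx, dif_pos]
        exact hsum _
      · simp [hx]
    · intro x
      by_cases hx : x ∈ F
      · simp only [hx, dif_pos]
        exact (hrep1 _).2.2.1
      · simp [hx]
    · intro x hx y hy hxy
      simp only [hx, hy, dif_pos]
      have hne : F.equivFin ⟨x, hx⟩ ≠ F.equivFin ⟨y, hy⟩ := by
        intro e
        have := F.equivFin.injective e
        exact hxy (congrArg Subtype.val this)
      have h1 := hrep2 _ _ hne
      have h2 : rel F (F.equivFin ⟨x, hx⟩) (F.equivFin ⟨y, hy⟩) ↔ lt x y := by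
        unfold rel
        simp
      rw [← h2, h1, hR]
      constructor
      · rintro ⟨g1, g2⟩
        exact ⟨g2, by linarith⟩
      · rintro ⟨g1, g2⟩
        exact ⟨by linarith, g1⟩
  choose lam a be h1 h2 h3 using hF
  obtain ⟨φ, hφ⟩ : ∃ φ : Ultrafilter (Finset X),
      (φ : Filter (Finset X)) ≤ atTop := ⟨Ultrafilter.of atTop, Ultrafilter.of_le _⟩
  refine no_emb (K := Germ (φ : Filter (Finset X)) ℝ)
    (lam := fun x => ((fun F => lam F x : Finset X → ℝ) : Germ (φ : Filter (Finset X)) ℝ))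
    (a := fun x => ((fun F => a F x : Finset X → ℝ) : Germ (φ : Filter (Finset X)) ℝ))
    (be := fun x => ((fun F => be F x : Finset X → ℝ) : Germ (φ : Filter (Finset X)) ℝ))
    ⟨?_, ?_, ?_⟩
  · intro x
    have e2 : (2 : Germ (φ : Filter (Finset X)) ℝ) =
        ((fun _ => (2 : ℝ) : Finset X → ℝ) : Germ (φ : Filter (Finset X)) ℝ) := rfl
    rw [e2, ← Germ.coe_add, ← Germ.coe_mul]
    congr 1
    funext F
    exact h1 F x
  · intro x
    rw [Germ.coe_le]
    exact Filter.Eventually.of_forall fun F => h2 F x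
  · intro x y hxy
    have hev : ∀ᶠ F in (φ : Filter (Finset X)),
        (lt x y ↔ (a F x < lam F y ∧ lam F x < be F y)) := by
      apply hφ
      have h4 : ∀ᶠ F : Finset X in atTop, ({x, y} : Finset X) ≤ F := eventually_ge_atTop _
      filter_upwards [h4] with F hF
      exact h3 F x (hF (by simp)) y (hF (by simp)) hxy
    rw [Germ.coe_lt, Germ.coe_lt, ← eventually_and]
    constructor
    · intro h
      filter_upwards [hev] with F hF
      exact hF.1 h
    · intro h
      obtain ⟨F, hF1, hF2⟩ := (hev.and h).exists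
      exact hF1.2 hF2

/-- **MP_1409ae_co, Q1: disproved.**  There is a finite strict order with a proper totally bounded
tolerance representation but no unit totally bounded tolerance representation. -/
theorem result : ∃ (n : ℕ) (r : Fin n → Fin n → Prop), IsStrictOrder (Fin n) r ∧ InP r ∧ ¬ InU r := by
  by_contra hcon
  push Not at hcon
  exact no_all hcon

end Pool.Agent.Results.MP_1409ae_co.ProperNotUnit
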